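import Mathlib
import Pool.Agent.IncSeq.Ideal

/-!
# Ladder systems on stationary subsets of `ω₁`

Clubs, stationary sets, pressing down with countably many codes, and good nodes for a pair of
ladder systems.
-/

set_option autoImplicit false
set_option linter.unusedSectionVars false

open Set Cardinal Pool.Agent.IncSeq

namespace Pool.Agent.Q310.BT

section general

variable {W : Type} [LinearOrder W]

/-- Closed unbounded subsets. -/
def IsClub (C : Set W) : Prop :=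
  (∀ a, ∃ b ∈ C, a < b) ∧
    ∀ a, (∃ b, b < a) → (∀ b < a, ∃ c ∈ C, b < c ∧ c < a) → a ∈ C

/-- Stationary subsets. -/
def Stat (E : Set W) : Prop := ∀ C : Set W, IsClub C → (E ∩ C).Nonempty

/-- `x` is a ladder system on `S`: for `a ∈ S`, `x a` is a strictly increasing sequence cofinal
in `a`. -/
structure Lad (S : Set W) (x : W → ℕ → W) : Prop where
  mono : ∀ a ∈ S, StrictMono (x a)
  lt : ∀ a ∈ S, ∀ n, x a n < a
  cof : ∀ a ∈ S, ∀ b < a, ∃ n, b < x a n

end general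

variable {W : Type} [LinearOrder W] [OrderBot W] [Om1 W]

theorem stat_of_not_NS {E : Set W} (h : ¬ NS E) : Stat E := by
  classical
  intro C hC
  by_contra hne
  rw [Set.not_nonempty_iff_eq_empty] at hne
  apply h
  -- a witness below each point outside `C`
  have key : ∀ a : W, ∃ b : W, a ∈ E → a ≠ ⊥ → (b < a ∧ ∀ c ∈ C, b < c → a ≤ c) := by
    intro a
    by_cases ha : a ∈ E ∧ a ≠ ⊥
    · have haC : a ∉ C := fun h' => by
        have : a ∈ E ∩ C := ⟨ha.1, h'⟩
        rw [hne] at this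
        exact this
      by_contra hcon
      push Not at hcon
      apply haC
      refine hC.2 a ⟨⊥, bot_lt_iff_ne_bot.2 ha.2⟩ ?_
      intro b hb
      obtain ⟨-, -, h3⟩ := hcon b
      obtain ⟨c, hcC, hbc, hca⟩ := h3 hb
      exact ⟨c, hcC, hbc, hca⟩
    · exact ⟨⊥, fun h1 h2 => absurd ⟨h1, h2⟩ ha⟩
  choose f hf using key
  refine ⟨f, fun a ha hb => (hf a ha hb).1, fun y => ?_⟩
  obtain ⟨b, hbC, hyb⟩ := hC.1 y
  refine ⟨b, fun a ha hay => ?_⟩
  by_cases hab : a = ⊥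
  · rw [hab]; exact bot_le
  · exact (hf a ha hab).2 b hbC (hay ▸ hyb)

theorem not_NS_of_stat {E : Set W} (h : Stat E) : ¬ NS E := by
  classical
  intro hN
  obtain ⟨b, hb⟩ := hN.exists_club
  obtain ⟨x, hxE, hx⟩ := h {d | d ≠ ⊥ ∧ ∀ y, y < d → b y < d} ⟨by
    intro a
    obtain ⟨d, hd, hcl⟩ := exists_closed b a
    exact ⟨d, ⟨(bot_le.trans_lt hd).ne', hcl⟩, hd⟩, by
    intro a ⟨b0, hb0⟩ hcof
    refine ⟨(bot_le.trans_lt hb0).ne', fun y hy => ?_⟩
    obtain ⟨c, hc, hyc, hca⟩ := hcof y hy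
    exact (hc.2 y hyc).trans hca⟩
  exact hb x hx.1 hx.2 hxE

theorem stat_iff {E : Set W} : Stat E ↔ ¬ NS E := ⟨not_NS_of_stat, stat_of_not_NS⟩

/-- Pressing down with countably many codes below each point. -/
theorem press {ι : Type} {E : Set W} (hE : ¬ NS E) (f : W → ι) (C : W → Set ι)
    (hC : ∀ w, (C w).Countable) (h : ∀ d ∈ E, ∃ w, w < d ∧ f d ∈ C w) :
    ∃ i, ¬ NS {d ∈ E | f d = i} := by
  classical
  choose! g hg1 hg2 using h
  obtain ⟨y, hy⟩ := NS.fodor hE g (fun x hx _ => hg1 x hx)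
  have : Countable (C y) := (hC y).to_subtype
  by_contra hcon
  push Not at hcon
  apply hy
  refine (NS.iUnion (fun i : C y => hcon i.1)).mono ?_
  rintro d ⟨hd, hdy⟩
  rw [mem_iUnion]
  have := hg2 d hd
  rw [hdy] at this
  exact ⟨⟨f d, this⟩, hd, rfl⟩

/-- the lists with entries from a countable set are countable -/
theorem countable_lists {α : Type} {T : Set α} (hT : T.Countable) :
    {s : List α | ∀ u ∈ s, u ∈ T}.Countable := by
  have : Countable T := hT.to_subtype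
  rw [← Set.range_list_map_coe]
  exact countable_range _

/-- a finite list of elements below `d` is bounded below `d` -/
theorem list_bdd {d : W} (hd : d ≠ ⊥) (s : List W) (hs : ∀ u ∈ s, u < d) :
    ∃ w, w < d ∧ ∀ u ∈ s, u ≤ w := by
  induction s with
  | nil => exact ⟨⊥, bot_lt_iff_ne_bot.2 hd, by simp⟩
  | cons a s ih =>
    obtain ⟨w, hw, h⟩ := ih (fun u hu => hs u (List.mem_cons_of_mem _ hu))
    refine ⟨max a w, max_lt (hs a List.mem_cons_self) hw, ?_⟩
    intro u hu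
    rcases List.mem_cons.1 hu with rfl | hu
    · exact le_max_left _ _
    · exact (h u hu).trans (le_max_right _ _)

/-- the code of the restriction of `z` to `n` -/
def res (z : ℕ → W) (n : ℕ) : List W := (List.range n).map z

omit [LinearOrder W] [OrderBot W] [Om1 W] in
theorem res_eq {z z' : ℕ → W} {n : ℕ} : res z n = res z' n ↔ ∀ i < n, z i = z' i := by
  unfold res
  rw [List.map_inj_left]
  simp

omit [LinearOrder W] [OrderBot W] [Om1 W] in
theorem res_length (z : ℕ → W) (n : ℕ) : (res z n).length = n := by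
  simp [res]

omit [LinearOrder W] [OrderBot W] [Om1 W] in
theorem mem_res {z : ℕ → W} {n : ℕ} {u : W} : u ∈ res z n ↔ ∃ i < n, z i = u := by
  simp [res]

theorem ne_bot_of_lad {S : Set W} {x : W → ℕ → W} (hx : Lad S x) {d : W} (hd : d ∈ S) : d ≠ ⊥ :=
  (bot_le.trans_lt (hx.lt d hd 0)).ne'

/-- `d` passes through the node `(a, k, l)` -/
def Thr (x y : W → ℕ → W) (a : W) (k l : ℕ) (d : W) : Prop :=
  (∀ i < k, x d i = x a i) ∧ ∀ i < l, y d i = y a i

omit [LinearOrder W] [OrderBot W] [Om1 W] in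
theorem Thr.refl (x y : W → ℕ → W) (a : W) (k l : ℕ) : Thr x y a k l a :=
  ⟨fun _ _ => rfl, fun _ _ => rfl⟩

omit [LinearOrder W] [OrderBot W] [Om1 W] in
theorem Thr.symm {x y : W → ℕ → W} {a d : W} {k l : ℕ} (h : Thr x y a k l d) :
    Thr x y d k l a :=
  ⟨fun i hi => (h.1 i hi).symm, fun i hi => (h.2 i hi).symm⟩

omit [LinearOrder W] [OrderBot W] [Om1 W] in
theorem Thr.trans {x y : W → ℕ → W} {a b d : W} {k l : ℕ} (h : Thr x y a k l b)
    (h' : Thr x y b k l d) : Thr x y a k l d :=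
  ⟨fun i hi => (h'.1 i hi).trans (h.1 i hi), fun i hi => (h'.2 i hi).trans (h.2 i hi)⟩

omit [LinearOrder W] [OrderBot W] [Om1 W] in
theorem Thr.mono {x y : W → ℕ → W} {a d : W} {k l k' l' : ℕ} (h : Thr x y a k l d)
    (hk : k' ≤ k) (hl : l' ≤ l) : Thr x y a k' l' d :=
  ⟨fun i hi => h.1 i (lt_of_lt_of_le hi hk), fun i hi => h.2 i (lt_of_lt_of_le hi hl)⟩

/-- the node `(a, k, l)` is good for `A` -/
def GoodN (x y : W → ℕ → W) (A : Set W) (a : W) (k l : ℕ) : Prop :=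
  ∀ e, ¬ NS {d ∈ A | Thr x y a k l d ∧ e ≤ x d k ∧ e ≤ y d l}

theorem GoodN.mono {x y : W → ℕ → W} {A B : Set W} {a : W} {k l : ℕ} (h : GoodN x y A a k l)
    (hAB : A ⊆ B) : GoodN x y B a k l := by
  intro e he
  apply h e
  refine he.mono ?_
  intro d hd
  exact ⟨hAB hd.1, hd.2⟩

/-- Every stationary set of points through a node has a good node properly above it. -/
theorem exists_good {S A : Set W} {x y : W → ℕ → W} (hx : Lad S x) (hy : Lad S y) (hAS : A ⊆ S)
    (hA : ¬ NS A) (k0 l0 : ℕ) :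
    ∃ a ∈ A, ∃ k l, k0 < k ∧ l0 < l ∧ GoodN x y A a k l := by
  classical
  -- fix the next values
  obtain ⟨⟨u, v⟩, hA'⟩ := press hA (fun d => (x d k0, y d l0))
    (fun w => (Iic w ×ˢ Iic w : Set (W × W)))
    (fun w => (Om1.ctb w).prod (Om1.ctb w)) (by
      intro d hd
      refine ⟨max (x d k0) (y d l0), max_lt (hx.lt d (hAS hd) _) (hy.lt d (hAS hd) _), ?_⟩
      exact Set.mk_mem_prod (le_max_left _ _) (le_max_right _ _))
  set A' : Set W := {d ∈ A | (x d k0, y d l0) = (u, v)} with hA'def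
  have hA'A : A' ⊆ A := fun d hd => hd.1
  have hu : ∀ d ∈ A', x d k0 = u := fun d hd => (Prod.mk.inj hd.2).1
  have hv : ∀ d ∈ A', y d l0 = v := fun d hd => (Prod.mk.inj hd.2).2
  -- for each `e` a node
  have step : ∀ e : W, ∃ a ∈ A', ∃ k l, (∀ i < k, x a i < e) ∧ (∀ i < l, y a i < e) ∧
      e ≤ x a k ∧ e ≤ y a l ∧
      ¬ NS {d ∈ A' | Thr x y a k l d ∧ e ≤ x d k ∧ e ≤ y d l} := by
    intro e
    have h1 : ¬ NS {d ∈ A' | e < d} := not_NS_Ioi hA' e
    have hex : ∀ d ∈ {d ∈ A' | e < d}, ∃ k, e ≤ x d k := fun d hd => by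
      obtain ⟨n, hn⟩ := hx.cof d (hAS (hA'A hd.1)) e hd.2
      exact ⟨n, hn.le⟩
    have hey : ∀ d ∈ {d ∈ A' | e < d}, ∃ k, e ≤ y d k := fun d hd => by
      obtain ⟨n, hn⟩ := hy.cof d (hAS (hA'A hd.1)) e hd.2
      exact ⟨n, hn.le⟩
    let K : W → ℕ := fun d => if h : ∃ k, e ≤ x d k then Nat.find h else 0
    let L : W → ℕ := fun d => if h : ∃ k, e ≤ y d k then Nat.find h else 0
    have hK : ∀ d ∈ {d ∈ A' | e < d}, e ≤ x d (K d) ∧ ∀ i < K d, x d i < e := by
      intro d hd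
      have h := hex d hd
      simp only [K, dif_pos h]
      refine ⟨Nat.find_spec h, fun i hi => ?_⟩
      exact lt_of_not_ge (Nat.find_min h hi)
    have hL : ∀ d ∈ {d ∈ A' | e < d}, e ≤ y d (L d) ∧ ∀ i < L d, y d i < e := by
      intro d hd
      have h := hey d hd
      simp only [L, dif_pos h]
      refine ⟨Nat.find_spec h, fun i hi => ?_⟩
      exact lt_of_not_ge (Nat.find_min h hi)
    obtain ⟨⟨⟨k, l⟩, s, t⟩, hst⟩ := press h1
      (fun d => ((K d, L d), res (x d) (K d), res (y d) (L d)))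
      (fun _ => (univ : Set (ℕ × ℕ)) ×ˢ ({s : List W | ∀ u ∈ s, u ∈ Iic e} ×ˢ
        {s : List W | ∀ u ∈ s, u ∈ Iic e}))
      (fun _ => (countable_univ).prod
        ((countable_lists (Om1.ctb e)).prod (countable_lists (Om1.ctb e))))
      (by
        intro d hd
        refine ⟨⊥, bot_le.trans_lt hd.2, ⟨mem_univ _, ?_, ?_⟩⟩
        · intro w hw
          obtain ⟨i, hi, rfl⟩ := mem_res.1 hw
          exact ((hK d hd).2 i hi).le
        · intro w hw
          obtain ⟨i, hi, rfl⟩ := mem_res.1 hw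
          exact ((hL d hd).2 i hi).le)
    obtain ⟨a, ⟨haE, hac⟩, -⟩ := not_bdd_of_not_NS hst ⊥
    simp only [Prod.mk.injEq] at hac
    obtain ⟨⟨rfl, rfl⟩, rfl, rfl⟩ := hac
    refine ⟨a, haE.1, K a, L a, (hK a haE).2, (hL a haE).2, (hK a haE).1, (hL a haE).1, ?_⟩
    intro hN
    apply hst
    refine hN.mono ?_
    rintro d ⟨hdE, hdc⟩
    simp only [Prod.mk.injEq] at hdc
    obtain ⟨⟨h1, h2⟩, h3, h4⟩ := hdc
    rw [h1] at h3
    rw [h2] at h4
    refine ⟨hdE.1, ⟨res_eq.1 h3, res_eq.1 h4⟩, ?_, ?_⟩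
    · rw [← h1]; exact (hK d hdE).1
    · rw [← h2]; exact (hL d hdE).1
  choose ra hra rk rl hrk hrl hrk' hrl' hst using step
  -- press down on `e`
  have hE : ¬ NS {e : W | max u v < e} := by
    have := not_NS_Ioi (W := W) not_NS_univ (max u v)
    simpa using this
  obtain ⟨⟨⟨k, l⟩, s, t⟩, hst'⟩ := press hE
    (fun e => ((rk e, rl e), res (x (ra e)) (rk e), res (y (ra e)) (rl e)))
    (fun w => (univ : Set (ℕ × ℕ)) ×ˢ ({s : List W | ∀ u ∈ s, u ∈ Iic w} ×ˢ
        {s : List W | ∀ u ∈ s, u ∈ Iic w}))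
    (fun w => (countable_univ).prod
        ((countable_lists (Om1.ctb w)).prod (countable_lists (Om1.ctb w))))
    (by
      intro e he
      have hne : e ≠ ⊥ := (bot_le.trans_lt he).ne'
      obtain ⟨w1, hw1, h1⟩ := list_bdd hne (res (x (ra e)) (rk e)) (by
        intro w hw
        obtain ⟨i, hi, rfl⟩ := mem_res.1 hw
        exact hrk e i hi)
      obtain ⟨w2, hw2, h2⟩ := list_bdd hne (res (y (ra e)) (rl e)) (by
        intro w hw
        obtain ⟨i, hi, rfl⟩ := mem_res.1 hw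
        exact hrl e i hi)
      exact ⟨max w1 w2, max_lt hw1 hw2, mem_univ _,
        fun w hw => (h1 w hw).trans (le_max_left _ _),
        fun w hw => (h2 w hw).trans (le_max_right _ _)⟩)
  obtain ⟨e0, ⟨he0, hc0⟩, -⟩ := not_bdd_of_not_NS hst' ⊥
  simp only [Prod.mk.injEq] at hc0
  obtain ⟨⟨rfl, rfl⟩, rfl, rfl⟩ := hc0
  have hS0 : ra e0 ∈ S := hAS (hA'A (hra e0))
  refine ⟨ra e0, hA'A (hra e0), rk e0, rl e0, ?_, ?_, ?_⟩
  · rw [← (hx.mono _ hS0).lt_iff_lt, hu _ (hra e0)]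
    exact (le_max_left u v).trans_lt (he0.trans_le (hrk' e0))
  · rw [← (hy.mono _ hS0).lt_iff_lt, hv _ (hra e0)]
    exact (le_max_right u v).trans_lt (he0.trans_le (hrl' e0))
  · intro e
    obtain ⟨e1, ⟨he1, hc1⟩, hee⟩ := not_bdd_of_not_NS hst' e
    simp only [Prod.mk.injEq] at hc1
    obtain ⟨⟨h1, h2⟩, h3, h4⟩ := hc1
    intro hN
    apply hst e1
    refine hN.mono ?_
    rintro d ⟨hdA, hdt, hd1, hd2⟩
    rw [h1] at h3 hdt hd1
    rw [h2] at h4 hdt hd2
    have h3' := res_eq.1 h3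
    have h4' := res_eq.1 h4
    refine ⟨hA'A hdA, ⟨fun i hi => (hdt.1 i hi).trans (h3' i hi),
      fun i hi => (hdt.2 i hi).trans (h4' i hi)⟩, hee.le.trans hd1, hee.le.trans hd2⟩

end Pool.Agent.Q310.BT
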