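import Pool.Agent.Helper647.FU.Defs
import Pool.Agent.Q310.BT.Basic

/-!
# Names for subsets of `ω₁`, `FA⁺` and σ-closed posets
-/

set_option autoImplicit false
set_option linter.unusedSectionVars false

open Set Cardinal Pool.Agent.IncSeq
open Pool.Agent.Helper647.FU (Compat MeetsAll GenericOver Proper ClosedUnder)

namespace Pool.Agent.Q310.BT

section names

variable {W P : Type} [LinearOrder W] [PartialOrder P]

/-- A name for a subset of `W` is a map `X : W → Set P`: the pairs `(a, s)`, `s ∈ X a`, say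
that `s` forces `a` into the set. `p` forces `a` to be in the set named by `X` if the conditions below
some member of `X a` are dense below `p`. -/
def FIn (X : W → Set P) (p : P) (a : W) : Prop := ∀ q ≤ p, ∃ r ≤ q, ∃ s ∈ X a, r ≤ s

/-- `p` forces the set named by `X` to be closed and unbounded in `W`. -/
def FClub (X : W → Set P) (p : P) : Prop :=
  (∀ a, ∀ q ≤ p, ∃ r ≤ q, ∃ b, a < b ∧ FIn X r b) ∧
    ∀ a, (∃ b, b < a) → ∀ q ≤ p,
      (∀ b < a, ∀ r ≤ q, ∃ s ≤ r, ∃ c, b < c ∧ c < a ∧ FIn X s c) → FIn X q a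

/-- `p` forces the set named by `X` to be stationary: it meets every club of the extension. -/
def FStat (X : W → Set P) (p : P) : Prop :=
  ∀ (Y : W → Set P), ∀ q ≤ p, FClub Y q → ∃ r ≤ q, ∃ a, FIn X r a ∧ FIn Y r a

theorem FIn.mono {X : W → Set P} {p q : P} {a : W} (h : FIn X p a) (hq : q ≤ p) : FIn X q a :=
  fun r hr => h r (hr.trans hq)

end names

/-- Every decreasing sequence of conditions has a lower bound. -/
def SigmaClosed (P : Type) [PartialOrder P] : Prop :=
  ∀ f : ℕ → P, (∀ n, f (n + 1) ≤ f n) → ∃ q, ∀ n, q ≤ f n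

/-- `FA⁺(Γ)` for a class `Γ` of posets; `W` stands for `ω₁`. -/
def FAplus (W : Type) [LinearOrder W] (Γ : (P : Type) → [PartialOrder P] → Prop) : Prop :=
  ∀ (P : Type) [PartialOrder P] [Nonempty P], Γ P →
    ∀ 𝒟 : Set (Set P), #𝒟 ≤ ℵ₁ → (∀ D ∈ 𝒟, ∀ p : P, ∃ q ∈ D, q ≤ p) →
      ∀ X : W → Set P, (∀ p, FStat X p) →
        ∃ G : Set P, MeetsAll 𝒟 G ∧ Stat {a : W | ∃ p ∈ G, FIn X p a}

/-- σ-closed posets are proper. -/
theorem proper_of_sigmaClosed {P : Type} [PartialOrder P] (hP : SigmaClosed P) : Proper P := by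
  classical
  -- an extension function
  have hex : ∀ (p : P) (D : Set P), ∃ r : P, r ≤ p ∧ ((∀ p : P, ∃ r ∈ D, r ≤ p) → r ∈ D) := by
    intro p D
    by_cases h : ∀ p : P, ∃ r ∈ D, r ≤ p
    · obtain ⟨r, hr, hrp⟩ := h p
      exact ⟨r, hrp, fun _ => hr⟩
    · exact ⟨p, le_rfl, fun h' => absurd h' h⟩
  choose e he1 he2 using hex
  let F : List (P ⊕ Set P ⊕ Empty) → Set (P ⊕ Set P ⊕ Empty) := fun l => match l with
    | [Sum.inl p, Sum.inr (Sum.inl D)] => {Sum.inl (e p D)}
    | _ => ∅
  refine ⟨Empty, F, ?_, ?_⟩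
  · intro l
    simp only [F]
    split
    · exact countable_singleton _
    · exact countable_empty
  · intro N hN hcl p hp
    have hFe : ∀ (q : P) (D : Set P), Sum.inl q ∈ N → Sum.inr (Sum.inl D) ∈ N →
        Sum.inl (e q D) ∈ N := by
      intro q D hq hD
      refine hcl [Sum.inl q, Sum.inr (Sum.inl D)] ?_ rfl
      intro a ha
      simp only [List.mem_cons, List.not_mem_nil, or_false] at ha
      rcases ha with rfl | rfl
      · exact hq
      · exact hD
    -- enumerate the sets in `N`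
    have hcD : {D : Set P | (Sum.inr (Sum.inl D) : P ⊕ Set P ⊕ Empty) ∈ N}.Countable :=
      hN.preimage (f := fun D : Set P => (Sum.inr (Sum.inl D) : P ⊕ Set P ⊕ Empty))
        (Sum.inr_injective.comp Sum.inl_injective)
    rcases Set.eq_empty_or_nonempty {D : Set P | (Sum.inr (Sum.inl D) : P ⊕ Set P ⊕ Empty) ∈ N}
      with h0 | h0
    · refine ⟨p, le_rfl, ?_⟩
      intro D hD
      have : D ∈ {D : Set P | (Sum.inr (Sum.inl D) : P ⊕ Set P ⊕ Empty) ∈ N} := hD
      rw [h0] at this
      exact this.elim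
    · obtain ⟨d, hd⟩ := hcD.exists_eq_range h0
      have hdN : ∀ n, (Sum.inr (Sum.inl (d n)) : P ⊕ Set P ⊕ Empty) ∈ N := by
        intro n
        have : d n ∈ {D : Set P | (Sum.inr (Sum.inl D) : P ⊕ Set P ⊕ Empty) ∈ N} := by
          rw [hd]; exact mem_range_self n
        exact this
      let f : ℕ → P := fun n => Nat.rec p (fun n q => e q (d n)) n
      have hf : ∀ n, f (n + 1) = e (f n) (d n) := fun n => rfl
      have hfN : ∀ n, (Sum.inl (f n) : P ⊕ Set P ⊕ Empty) ∈ N := by
        intro n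
        induction n with
        | zero => exact hp
        | succ n ih => rw [hf]; exact hFe _ _ ih (hdN n)
      obtain ⟨q, hq⟩ := hP f (fun n => by rw [hf]; exact he1 _ _)
      refine ⟨q, hq 0, ?_⟩
      intro D hD hdense r hr
      have : D ∈ range d := by rw [← hd]; exact hD
      obtain ⟨n, rfl⟩ := this
      refine ⟨f (n + 1), ?_, hfN (n + 1), r, le_rfl, hr.trans (hq (n + 1))⟩
      rw [hf]
      exact he2 _ _ hdense

end Pool.Agent.Q310.BT
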