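import Pool.Agent.Q310.BT.Basic

/-!
# Baumgartner types are not σ-scattered
-/

set_option autoImplicit false
set_option linter.unusedSectionVars false

open Set Cardinal Pool.Agent.IncSeq

namespace Pool.Agent.Q310.BT

/-- `L` contains no copy of the rationals. -/
def Scattered (L : Type) [LinearOrder L] : Prop := IsEmpty (ℚ ↪o L)

/-- `L` is a union of countably many scattered suborders. -/
def SigmaScattered (L : Type) [LinearOrder L] : Prop :=
  ∃ A : ℕ → Set L, (∀ z, ∃ n, z ∈ A n) ∧ ∀ n, Scattered (A n)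

section rat

variable {L : Type} [LinearOrder L]

/-- A splitting family of sets. -/
structure Split (𝒮 : Set (Set L)) : Prop where
  ne : ∀ A ∈ 𝒮, A.Nonempty
  sp : ∀ A ∈ 𝒮, ∃ B ∈ 𝒮, ∃ C ∈ 𝒮, B ⊆ A ∧ C ⊆ A ∧ ∀ u ∈ B, ∀ v ∈ C, u < v

variable {𝒮 : Set (Set L)}

theorem Split.three (h : Split 𝒮) (A : Set L) (hA : A ∈ 𝒮) :
    ∃ (B C : Set L) (a : L), a ∈ A ∧ B ∈ 𝒮 ∧ C ∈ 𝒮 ∧ B ⊆ A ∧ C ⊆ A ∧
      (∀ u ∈ B, u < a) ∧ ∀ v ∈ C, a < v := by
  obtain ⟨B, hB, D, hD, hBA, hDA, hBD⟩ := h.sp A hA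
  obtain ⟨E, hE, C, hC, hED, hCD, hEC⟩ := h.sp D hD
  obtain ⟨a, ha⟩ := h.ne E hE
  exact ⟨B, C, a, hDA (hED ha), hB, hC, hBA, hCD.trans hDA, fun u hu => hBD u hu a (hED ha),
    fun v hv => hEC a ha v hv⟩

noncomputable def lo (h : Split 𝒮) (A : 𝒮) : 𝒮 :=
  ⟨(h.three A.1 A.2).choose, (h.three A.1 A.2).choose_spec.choose_spec.choose_spec.2.1⟩

noncomputable def hi (h : Split 𝒮) (A : 𝒮) : 𝒮 :=
  ⟨(h.three A.1 A.2).choose_spec.choose,
    (h.three A.1 A.2).choose_spec.choose_spec.choose_spec.2.2.1⟩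

noncomputable def md (h : Split 𝒮) (A : 𝒮) : L :=
  (h.three A.1 A.2).choose_spec.choose_spec.choose

theorem md_mem (h : Split 𝒮) (A : 𝒮) : md h A ∈ A.1 :=
  (h.three A.1 A.2).choose_spec.choose_spec.choose_spec.1

theorem lo_sub (h : Split 𝒮) (A : 𝒮) : (lo h A).1 ⊆ A.1 :=
  (h.three A.1 A.2).choose_spec.choose_spec.choose_spec.2.2.2.1

theorem hi_sub (h : Split 𝒮) (A : 𝒮) : (hi h A).1 ⊆ A.1 :=
  (h.three A.1 A.2).choose_spec.choose_spec.choose_spec.2.2.2.2.1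

theorem lo_lt (h : Split 𝒮) (A : 𝒮) : ∀ u ∈ (lo h A).1, u < md h A :=
  (h.three A.1 A.2).choose_spec.choose_spec.choose_spec.2.2.2.2.2.1

theorem lt_hi (h : Split 𝒮) (A : 𝒮) : ∀ u ∈ (hi h A).1, md h A < u :=
  (h.three A.1 A.2).choose_spec.choose_spec.choose_spec.2.2.2.2.2.2

/-- the points of the scheme -/
noncomputable def pt (h : Split 𝒮) : 𝒮 → List Bool → L
  | A, [] => md h A
  | A, false :: s => pt h (lo h A) s
  | A, true :: s => pt h (hi h A) s

theorem pt_mem (h : Split 𝒮) (s : List Bool) : ∀ A : 𝒮, pt h A s ∈ A.1 := by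
  induction s with
  | nil => intro A; exact md_mem h A
  | cons b s ih =>
    intro A
    cases b
    · exact lo_sub h A (ih _)
    · exact hi_sub h A (ih _)

theorem pt_lo (h : Split 𝒮) (s : List Bool) : ∀ A : 𝒮, ∃ u, pt h A u < pt h A s := by
  induction s with
  | nil => intro A; exact ⟨[false], lo_lt h A _ (pt_mem h [] _)⟩
  | cons b s ih =>
    intro A
    cases b
    · obtain ⟨u, hu⟩ := ih (lo h A)
      exact ⟨false :: u, hu⟩
    · obtain ⟨u, hu⟩ := ih (hi h A)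
      exact ⟨true :: u, hu⟩

theorem pt_hi (h : Split 𝒮) (s : List Bool) : ∀ A : 𝒮, ∃ u, pt h A s < pt h A u := by
  induction s with
  | nil => intro A; exact ⟨[true], lt_hi h A _ (pt_mem h [] _)⟩
  | cons b s ih =>
    intro A
    cases b
    · obtain ⟨u, hu⟩ := ih (lo h A)
      exact ⟨false :: u, hu⟩
    · obtain ⟨u, hu⟩ := ih (hi h A)
      exact ⟨true :: u, hu⟩

theorem pt_dense (h : Split 𝒮) (s : List Bool) : ∀ (A : 𝒮) (t : List Bool),
    pt h A s < pt h A t → ∃ u, pt h A s < pt h A u ∧ pt h A u < pt h A t := by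
  induction s with
  | nil =>
    intro A t hst
    rcases t with _ | ⟨b, t⟩
    · exact absurd hst (lt_irrefl _)
    cases b
    · exact absurd hst (lt_asymm (lo_lt h A _ (pt_mem h t _)))
    · obtain ⟨u, hu⟩ := pt_lo h t (hi h A)
      exact ⟨true :: u, lt_hi h A _ (pt_mem h u _), hu⟩
  | cons b s ih =>
    intro A t hst
    cases b
    · rcases t with _ | ⟨c, t⟩
      · obtain ⟨u, hu⟩ := pt_hi h s (lo h A)
        exact ⟨false :: u, hu, lo_lt h A _ (pt_mem h u _)⟩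
      · cases c
        · obtain ⟨u, hu⟩ := ih (lo h A) t hst
          exact ⟨false :: u, hu⟩
        · exact ⟨[], lo_lt h A _ (pt_mem h s _), lt_hi h A _ (pt_mem h t _)⟩
    · rcases t with _ | ⟨c, t⟩
      · exact absurd hst (lt_asymm (lt_hi h A _ (pt_mem h s _)))
      · cases c
        · exact absurd hst (lt_asymm ((lo_lt h A _ (pt_mem h t _)).trans
            (lt_hi h A _ (pt_mem h s _))))
        · obtain ⟨u, hu⟩ := ih (hi h A) t hst
          exact ⟨true :: u, hu⟩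

/-- The rationals embed into each member of a splitting family. -/
theorem rat_embeds (h : Split 𝒮) (A : Set L) (hA : A ∈ 𝒮) : Nonempty (ℚ ↪o A) := by
  let R : Set L := range (pt h ⟨A, hA⟩)
  have hRA : R ⊆ A := by
    rintro _ ⟨s, rfl⟩
    exact pt_mem h s ⟨A, hA⟩
  have hd : DenselyOrdered R := by
    refine ⟨?_⟩
    rintro ⟨_, s, rfl⟩ ⟨_, t, rfl⟩ hst
    obtain ⟨u, hu1, hu2⟩ := pt_dense h s _ t hst
    exact ⟨⟨_, u, rfl⟩, hu1, hu2⟩
  have hn : Nontrivial R := by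
    obtain ⟨u, hu⟩ := pt_lo h [] ⟨A, hA⟩
    exact ⟨⟨⟨_, u, rfl⟩, ⟨_, [], rfl⟩, fun he => hu.ne (congrArg Subtype.val he)⟩⟩
  obtain ⟨f⟩ := Order.embedding_from_countable_to_dense (α := ℚ) (β := R)
  exact ⟨f.trans (OrderEmbedding.ofStrictMono (Set.inclusion hRA) (fun a b hab => hab))⟩

end rat

variable {W : Type} [LinearOrder W] [WellFoundedLT W]

/-- The Baumgartner type with index set `S` given by the ladder system `x`: the set of the
sequences `x a`, `a ∈ S`, with the lexicographic order. -/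
abbrev BType (S : Set W) (x : W → ℕ → W) : Type := {z : Lex (ℕ → W) // ∃ a ∈ S, z = toLex (x a)}

end Pool.Agent.Q310.BT

namespace Pool.Agent.Q310.BT

variable {W : Type} [LinearOrder W] [OrderBot W] [Om1 W]

/-- stationary sets split -/
theorem split_stat {S E : Set W} {x : W → ℕ → W} (hx : Lad S x) (hES : E ⊆ S) (hE : ¬ NS E) :
    ∃ B ⊆ E, ∃ C ⊆ E, ¬ NS B ∧ ¬ NS C ∧ ∀ b ∈ B, ∀ c ∈ C, toLex (x b) < toLex (x c) := by
  classical
  have hN : ∀ n : ℕ, NS {a ∈ E | NS {d ∈ E | ∀ i < n, x d i = x a i}} := by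
    intro n
    by_contra hcon
    obtain ⟨s, hs⟩ := press hcon (fun d => res (x d) n) (fun w => {s : List W | ∀ u ∈ s, u ∈ Iic w})
      (fun w => countable_lists (Om1.ctb w)) (by
        intro d hd
        obtain ⟨w, hw, h⟩ := list_bdd (ne_bot_of_lad hx (hES hd.1)) (res (x d) n) (by
          intro u hu
          obtain ⟨i, -, rfl⟩ := mem_res.1 hu
          exact hx.lt d (hES hd.1) i)
        exact ⟨w, hw, h⟩)
    obtain ⟨a, ⟨haE, hac⟩, -⟩ := not_bdd_of_not_NS hs ⊥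
    subst hac
    apply hs
    refine haE.2.mono ?_
    rintro d ⟨hdE, hdc⟩
    exact ⟨hdE.1, res_eq.1 hdc⟩
  have hE' : ¬ NS {a ∈ E | ∀ n, ¬ NS {d ∈ E | ∀ i < n, x d i = x a i}} := by
    intro h
    apply hE
    refine (h.union (NS.iUnion hN)).mono ?_
    intro a ha
    by_cases h' : ∀ n, ¬ NS {d ∈ E | ∀ i < n, x d i = x a i}
    · exact Or.inl ⟨ha, h'⟩
    · push Not at h'
      obtain ⟨n, hn⟩ := h'
      exact Or.inr (mem_iUnion.2 ⟨n, ha, hn⟩)
  obtain ⟨a, ha, -⟩ := not_bdd_of_not_NS hE' ⊥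
  obtain ⟨b, hb, hab⟩ := not_bdd_of_not_NS hE' a
  have hex : ∃ n, x a n ≠ x b n := by
    obtain ⟨n, hn⟩ := hx.cof b (hES hb.1) a hab
    exact ⟨n, fun h => absurd (hx.lt a (hES ha.1) n) (not_lt.2 (h ▸ hn.le))⟩
  have hn := Nat.find_spec hex
  have hmin : ∀ i < Nat.find hex, x a i = x b i := fun i hi => by
    by_contra h
    exact Nat.find_min hex hi h
  set n := Nat.find hex
  have key : ∀ u v : W, (∀ i < n, x u i = x v i) → x u n < x v n →
      ∀ c ∈ {d ∈ E | ∀ i < n + 1, x d i = x u i}, ∀ d ∈ {d ∈ E | ∀ i < n + 1, x d i = x v i},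
        toLex (x c) < toLex (x d) := by
    intro u v huv huv' c hc d hd
    refine ⟨n, fun j hj => ?_, ?_⟩
    · change x c j = x d j
      rw [hc.2 j (by omega), hd.2 j (by omega), huv j hj]
    · change x c n < x d n
      rw [hc.2 n (by omega), hd.2 n (by omega)]
      exact huv'
  rcases lt_or_gt_of_ne hn with h | h
  · exact ⟨_, fun d hd => hd.1, _, fun d hd => hd.1, ha.2 (n + 1), hb.2 (n + 1), key a b hmin h⟩
  · exact ⟨_, fun d hd => hd.1, _, fun d hd => hd.1, hb.2 (n + 1), ha.2 (n + 1),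
      key b a (fun i hi => (hmin i hi).symm) h⟩

/-- A Baumgartner type with a stationary index set is not σ-scattered. -/
theorem not_sigmaScattered {S : Set W} {x : W → ℕ → W} (hx : Lad S x) (hS : ¬ NS S) :
    ¬ SigmaScattered (BType S x) := by
  classical
  rintro ⟨A, hA, hsc⟩
  -- some piece is stationary
  have hex : ∃ n, ¬ NS {a | ∃ h : a ∈ S, (⟨toLex (x a), a, h, rfl⟩ : BType S x) ∈ A n} := by
    by_contra hcon
    push Not at hcon
    apply hS
    refine (NS.iUnion hcon).mono ?_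
    intro a ha
    obtain ⟨n, hn⟩ := hA ⟨toLex (x a), a, ha, rfl⟩
    exact mem_iUnion.2 ⟨n, ha, hn⟩
  obtain ⟨n, hn⟩ := hex
  let 𝒮 : Set (Set (BType S x)) := {B | ∃ E ⊆ {a | ∃ h : a ∈ S,
    (⟨toLex (x a), a, h, rfl⟩ : BType S x) ∈ A n}, ¬ NS E ∧ B = {z | ∃ a ∈ E, z.1 = toLex (x a)}}
  have h𝒮 : Split 𝒮 := by
    constructor
    · rintro B ⟨E, hE, hEN, rfl⟩
      obtain ⟨a, ha, -⟩ := not_bdd_of_not_NS hEN ⊥
      exact ⟨⟨toLex (x a), a, (hE ha).1, rfl⟩, a, ha, rfl⟩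
    · rintro B ⟨E, hE, hEN, rfl⟩
      obtain ⟨B', hB', C', hC', hB, hC, hBC⟩ := split_stat hx (fun a ha => (hE ha).1) hEN
      refine ⟨_, ⟨B', hB'.trans hE, hB, rfl⟩, _, ⟨C', hC'.trans hE, hC, rfl⟩, ?_, ?_, ?_⟩
      · rintro z ⟨a, ha, hz⟩
        exact ⟨a, hB' ha, hz⟩
      · rintro z ⟨a, ha, hz⟩
        exact ⟨a, hC' ha, hz⟩
      · rintro u ⟨a, ha, hu⟩ v ⟨b, hb, hv⟩
        change u.1 < v.1
        rw [hu, hv]
        exact hBC a ha b hb
  obtain ⟨f⟩ := rat_embeds h𝒮 _ ⟨_, subset_rfl, hn, rfl⟩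
  apply (hsc n).false
  refine f.trans (OrderEmbedding.ofStrictMono (Set.inclusion ?_) (fun a b hab => hab))
  rintro z ⟨a, ⟨haS, haA⟩, hz⟩
  have : z = ⟨toLex (x a), a, haS, rfl⟩ := Subtype.ext hz
  rw [this]
  exact haA

end Pool.Agent.Q310.BT
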