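import Pool.Agent.Q310.BT.Poset
import Pool.Agent.Q310.BT.Scat

/-!
# The generic set of points is stationary
-/

set_option autoImplicit false
set_option linter.unusedSectionVars false

open Set Cardinal Pool.Agent.IncSeq
open Pool.Agent.Helper647.FU (Compat MeetsAll)

namespace Pool.Agent.Q310.BT

variable {W : Type} [LinearOrder W] [OrderBot W] [Om1 W]

section argument

variable {D : Dat W} {Y : W → Set (Cond D)} {p : Cond D}

/-- a state of the construction -/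
structure St (D : Dat W) (Y : W → Set (Cond D)) (p : Cond D) where
  q : Cond D
  b : Br W
  n : ℕ
  c : W
  e : W
  hq : q ≤ p
  hb : b ∈ q.1
  hc : FIn Y q c
  hce : c < e
  he : ∀ b' ∈ q.1, b'.a < e

/-- the node `v` may follow -/
def Ext (s : St D Y p) (v : W × ℕ × ℕ) : Prop :=
  v.1 ∈ D.S ∧ GoodN D.x D.y D.S v.1 v.2.1 v.2.2 ∧ Thr D.x D.y s.b.a (s.b.k s.n) (s.b.l s.n) v.1 ∧
    s.b.k s.n < v.2.1 ∧ s.b.l s.n < v.2.2 ∧ s.e ≤ D.x v.1 (s.b.k s.n) ∧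
    s.e ≤ D.y v.1 (s.b.l s.n)

/-- `d` passes through the current node with large next values -/
def At (s : St D Y p) (d : W) : Prop :=
  Thr D.x D.y s.b.a (s.b.k s.n) (s.b.l s.n) d ∧ s.e ≤ D.x d (s.b.k s.n) ∧
    s.e ≤ D.y d (s.b.l s.n)

theorem bdd_cond (q : Cond D) : ∃ e : W, ∀ b ∈ q.1, b.a < e := by
  obtain ⟨w, hw⟩ := exists_gt_of_countable (q.2.2.1.image Br.a)
  exact ⟨w, fun b hb => hw _ ⟨b, hb, rfl⟩⟩

theorem extend (hY : FClub Y p) (q : Cond D) (hq : q ≤ p) :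
    ∃ (r : Cond D) (c e : W), r ≤ q ∧ (∀ b ∈ q.1, b.a < c) ∧ FIn Y r c ∧ c < e ∧
      ∀ b ∈ r.1, b.a < e := by
  obtain ⟨e0, he0⟩ := bdd_cond q
  obtain ⟨r, hr, c, hc, hfc⟩ := hY.1 e0 q hq
  obtain ⟨e1, he1⟩ := bdd_cond r
  obtain ⟨e, he⟩ := exists_gt_of_countable (W := W) (A := {c, e1}) (by simp)
  exact ⟨r, c, e, hr, fun b hb => (he0 b hb).trans hc, hfc, he c (by simp),
    fun b hb => (he1 b hb).trans (he e1 (by simp))⟩

theorem step_exists (hY : FClub Y p) (s : St D Y p) (v : W × ℕ × ℕ) (h : Ext s v) :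
    ∃ s' : St D Y p, s'.q ≤ s.q ∧ s'.b = nextBr s.b s.n v.1 v.2.1 v.2.2 ∧ s'.n = s.n + 1 ∧
      v.1 < s'.c := by
  have hbv := s.q.2.2.2.1 s.b s.hb
  obtain ⟨h1, h2, h3, h4, h5, h6, h7⟩ := h
  have hcv : Valid D (nextBr s.b s.n v.1 v.2.1 v.2.2) := nextBr_valid hbv h1 h4 h5 h3
  have hcoh : ∀ b' ∈ s.q.1, b' ≠ nextBr s.b s.n v.1 v.2.1 v.2.2 →
      Coh D b' (nextBr s.b s.n v.1 v.2.1 v.2.2) :=
    coh_of_new s.hb s.he (fun i hi => ⟨(nextBr_k_le hi).symm, (nextBr_l_le hi).symm⟩) h3 h6 h7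
  have hle : addBr s.q _ hcv hcoh ≤ s.q := subset_insert _ _
  obtain ⟨r, c, e, hr, hc, hfc, hce, he⟩ := extend hY (addBr s.q _ hcv hcoh) (hle.trans s.hq)
  refine ⟨⟨r, nextBr s.b s.n v.1 v.2.1 v.2.2, s.n + 1, c, e, hr.trans (hle.trans s.hq),
    hr (mem_insert _ _), hfc, hce, he⟩, hr.trans hle, rfl, rfl, ?_⟩
  exact hc _ (mem_insert _ _)

open Classical in
/-- the next state -/
noncomputable def step (hY : FClub Y p) (s : St D Y p) (v : W × ℕ × ℕ) : St D Y p :=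
  if h : Ext s v then (step_exists hY s v h).choose else s

theorem step_spec (hY : FClub Y p) (s : St D Y p) (v : W × ℕ × ℕ) (h : Ext s v) :
    (step hY s v).q ≤ s.q ∧ (step hY s v).b = nextBr s.b s.n v.1 v.2.1 v.2.2 ∧
      (step hY s v).n = s.n + 1 ∧ v.1 < (step hY s v).c := by
  unfold step
  rw [dif_pos h]
  exact (step_exists hY s v h).choose_spec

/-- the exceptional points of a state -/
def Bd (hY : FClub Y p) (s : St D Y p) : Set W :=
  {d ∈ D.S | At s d ∧ ¬ ∃ v : W × ℕ × ℕ, v.1 < d ∧ Ext s v ∧ At (step hY s v) d}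

theorem ns_bd (hY : FClub Y p) (s : St D Y p) : NS (Bd hY s) := by
  by_contra hN
  have hsub : Bd hY s ⊆ D.S := fun d hd => hd.1
  obtain ⟨a, ha, k, l, hk, hl, hg⟩ := exists_good D.hx D.hy hsub hN (s.b.k s.n) (s.b.l s.n)
  have hE : Ext s (a, k, l) := ⟨ha.1, hg.mono hsub, ha.2.1.1, hk, hl, ha.2.1.2.1, ha.2.1.2.2⟩
  obtain ⟨d, ⟨hd, hdt, hd1, hd2⟩, had⟩ := not_bdd_of_not_NS (hg (step hY s (a, k, l)).e) a
  obtain ⟨-, hb, hn, -⟩ := step_spec hY s _ hE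
  apply hd.2.2
  refine ⟨(a, k, l), had, hE, ?_⟩
  unfold At
  rw [hb, hn, nextBr_k_succ, nextBr_l_succ]
  exact ⟨hdt, hd1, hd2⟩

/-- the state after a list of nodes -/
noncomputable def st (hY : FClub Y p) (s0 : St D Y p) : List (W × ℕ × ℕ) → St D Y p
  | [] => s0
  | v :: σ => step hY (st hY s0 σ) v

theorem ns_all (hY : FClub Y p) (s0 : St D Y p) :
    NS {d | ∃ σ : List (W × ℕ × ℕ), (∀ v ∈ σ, v.1 < d) ∧ d ∈ Bd hY (st hY s0 σ)} := by
  classical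
  by_contra hN
  have hch : ∀ d : W, ∃ σ : List (W × ℕ × ℕ),
      d ∈ {d | ∃ σ : List (W × ℕ × ℕ), (∀ v ∈ σ, v.1 < d) ∧ d ∈ Bd hY (st hY s0 σ)} →
        (∀ v ∈ σ, v.1 < d) ∧ d ∈ Bd hY (st hY s0 σ) := by
    intro d
    by_cases h : d ∈ {d | ∃ σ : List (W × ℕ × ℕ), (∀ v ∈ σ, v.1 < d) ∧
        d ∈ Bd hY (st hY s0 σ)}
    · obtain ⟨σ, hσ⟩ := h
      exact ⟨σ, fun _ => hσ⟩
    · exact ⟨[], fun h' => absurd h' h⟩
  choose F hF using hch
  obtain ⟨σ, hσ⟩ := press hN F (fun w => {σ | ∀ v ∈ σ, v ∈ {v : W × ℕ × ℕ | v.1 ∈ Iic w}})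
    (fun w => countable_lists (by
      have h1 : ((Iic w) ×ˢ (univ : Set (ℕ × ℕ))).Countable := (Om1.ctb w).prod countable_univ
      refine h1.mono ?_
      intro v hv
      exact ⟨hv, mem_univ _⟩)) (by
    intro d hd
    obtain ⟨h1, h2⟩ := hF d hd
    obtain ⟨w, hw, h⟩ := list_bdd (ne_bot_of_lad D.hx h2.1) ((F d).map Prod.fst) (by
      intro u hu
      obtain ⟨v, hv, rfl⟩ := List.mem_map.1 hu
      exact h1 v hv)
    exact ⟨w, hw, fun v hv => h v.1 (List.mem_map_of_mem hv)⟩)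
  apply hσ
  refine (ns_bd hY (st hY s0 σ)).mono ?_
  rintro d ⟨hd, hdσ⟩
  have := (hF d hd).2
  rw [hdσ] at this
  exact this

theorem exists_stat (hY : FClub Y p) (hgood : GoodN D.x D.y D.S D.a0 D.k0 D.l0) :
    ∃ r ≤ p, ∃ d, FIn (gen D) r d ∧ FIn Y r d := by
  classical
  -- the initial state
  obtain ⟨r0, c0, e0, hr0, -, hfc0, hce0, he0⟩ := extend hY p le_rfl
  obtain ⟨b0, hb0⟩ := p.2.1
  let s0 : St D Y p := ⟨r0, b0, 0, c0, e0, hr0, hr0 hb0, hfc0, hce0, he0⟩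
  have hb0v : Valid D b0 := p.2.2.2.1 b0 hb0
  obtain ⟨d, ⟨hdS, hdt, hd1, hd2⟩, hdN⟩ : ∃ d ∈ {d ∈ D.S | Thr D.x D.y D.a0 D.k0 D.l0 d ∧
      e0 ≤ D.x d D.k0 ∧ e0 ≤ D.y d D.l0}, d ∉ {d | ∃ σ : List (W × ℕ × ℕ),
        (∀ v ∈ σ, v.1 < d) ∧ d ∈ Bd hY (st hY s0 σ)} := by
    by_contra hcon
    push Not at hcon
    exact hgood e0 ((ns_all hY s0).mono hcon)
  have hAt0 : At s0 d := by
    change Thr D.x D.y b0.a (b0.k 0) (b0.l 0) d ∧ e0 ≤ D.x d (b0.k 0) ∧ e0 ≤ D.y d (b0.l 0)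
    rw [hb0v.2.2.2.1, hb0v.2.2.2.2.1]
    exact ⟨hb0v.2.2.2.2.2.symm.trans hdt, hd1, hd2⟩
  -- the sequence of nodes
  let T : Type := {σ : List (W × ℕ × ℕ) // (∀ v ∈ σ, v.1 < d) ∧ At (st hY s0 σ) d}
  have hnext : ∀ σ : T, ∃ v : W × ℕ × ℕ, v.1 < d ∧ Ext (st hY s0 σ.1) v ∧
      At (step hY (st hY s0 σ.1) v) d := by
    intro σ
    by_contra hcon
    exact hdN ⟨σ.1, σ.2.1, hdS, σ.2.2, hcon⟩
  choose v hv1 hv2 hv3 using hnext
  let nx : T → T := fun σ => ⟨v σ :: σ.1, by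
    intro u hu
    rcases List.mem_cons.1 hu with rfl | hu
    · exact hv1 σ
    · exact σ.2.1 u hu, hv3 σ⟩
  let sq : ℕ → T := fun n => Nat.rec ⟨[], by simp, hAt0⟩ (fun _ σ => nx σ) n
  let s : ℕ → St D Y p := fun n => st hY s0 (sq n).1
  let u : ℕ → W × ℕ × ℕ := fun n => v (sq n)
  have hs0 : s 0 = s0 := rfl
  have hsucc : ∀ n, s (n + 1) = step hY (s n) (u n) := fun n => rfl
  have hExt : ∀ n, Ext (s n) (u n) := fun n => hv2 (sq n)
  have hAt : ∀ n, At (s n) d := fun n => (sq n).2.2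
  have hsp : ∀ n, (s (n + 1)).q ≤ (s n).q ∧
      (s (n + 1)).b = nextBr (s n).b (s n).n (u n).1 (u n).2.1 (u n).2.2 ∧
      (s (n + 1)).n = (s n).n + 1 ∧ (u n).1 < (s (n + 1)).c := by
    intro n
    rw [hsucc]
    exact step_spec hY _ _ (hExt n)
  have hn : ∀ n, (s n).n = n := by
    intro n
    induction n with
    | zero => rfl
    | succ n ih => rw [(hsp n).2.2.1, ih]
  have hki : ∀ n i, i ≤ n → (s n).b.k i = (s i).b.k i := by
    intro n
    induction n with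
    | zero => intro i hi; have : i = 0 := by omega
              subst this; rfl
    | succ n ih =>
      intro i hi
      by_cases h : i ≤ n
      · rw [(hsp n).2.1, nextBr_k_le (by rw [hn]; exact h)]
        exact ih i h
      · have : i = n + 1 := by omega
        subst this; rfl
  have hli : ∀ n i, i ≤ n → (s n).b.l i = (s i).b.l i := by
    intro n
    induction n with
    | zero => intro i hi; have : i = 0 := by omega
              subst this; rfl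
    | succ n ih =>
      intro i hi
      by_cases h : i ≤ n
      · rw [(hsp n).2.1, nextBr_l_le (by rw [hn]; exact h)]
        exact ih i h
      · have : i = n + 1 := by omega
        subst this; rfl
  have hAt' : ∀ n, Thr D.x D.y (s n).b.a ((s n).b.k n) ((s n).b.l n) d ∧
      (s n).e ≤ D.x d ((s n).b.k n) ∧ (s n).e ≤ D.y d ((s n).b.l n) := by
    intro n
    have := hAt n
    unfold At at this
    rw [hn] at this
    exact this
  have hK : StrictMono (fun n => (s n).b.k n) := by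
    apply strictMono_nat_of_lt_succ
    intro n
    have h1 := (hExt n).2.2.2.1
    have h2 : (s (n + 1)).b.k (n + 1) = (u n).2.1 := by
      rw [(hsp n).2.1, hn, nextBr_k_succ]
    rw [hn] at h1
    rw [h2]
    exact h1
  have hL : StrictMono (fun n => (s n).b.l n) := by
    apply strictMono_nat_of_lt_succ
    intro n
    have h1 := (hExt n).2.2.2.2.1
    have h2 : (s (n + 1)).b.l (n + 1) = (u n).2.2 := by
      rw [(hsp n).2.1, hn, nextBr_l_succ]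
    rw [hn] at h1
    rw [h2]
    exact h1
  -- the new branch
  have hΔv : Valid D ⟨d, fun n => (s n).b.k n, fun n => (s n).b.l n⟩ := by
    have h0 := (s 0).q.2.2.2.1 _ (s 0).hb
    exact ⟨hdS, hK, hL, h0.2.2.2.1, h0.2.2.2.2.1, hdt⟩
  have hΔc : ∀ b ∈ (limit (fun n => (s n).q) (fun n => (hsp n).1)).1,
      b ≠ ⟨d, fun n => (s n).b.k n, fun n => (s n).b.l n⟩ →
      Coh D b ⟨d, fun n => (s n).b.k n, fun n => (s n).b.l n⟩ := by
    intro b hb hne
    obtain ⟨n, hbn⟩ := mem_iUnion.1 hb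
    exact coh_of_new (n := n) (s n).hb (s n).he (fun i hi => ⟨hki n i hi, hli n i hi⟩)
      (hAt' n).1 (hAt' n).2.1 (hAt' n).2.2 b hbn hne
  have hle : ∀ n, addBr (limit (fun n => (s n).q) (fun n => (hsp n).1)) _ hΔv hΔc ≤ (s n).q := by
    intro n
    exact (subset_iUnion (fun n => (s n).q.1) n).trans (subset_insert _ _)
  refine ⟨addBr (limit (fun n => (s n).q) (fun n => (hsp n).1)) _ hΔv hΔc, (hle 0).trans (s 0).hq,
    d, ?_, ?_⟩
  · exact fin_of_gen ⟨_, mem_insert _ _, rfl⟩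
  · refine hY.2 d ⟨_, D.hx.lt d hdS 0⟩ _ ((hle 0).trans (s 0).hq) ?_
    intro β hβ r hr
    obtain ⟨m, hm⟩ := D.hx.cof d hdS β hβ
    refine ⟨r, le_rfl, (s (m + 1)).c, ?_, ?_, ?_⟩
    · have h1 : D.x d m = D.x (s (m + 1)).b.a m :=
        (hAt' (m + 1)).1.1 m (lt_of_lt_of_le (Nat.lt_succ_self m) (hK.id_le (m + 1)))
      have h2 : (s (m + 1)).b.a = (u m).1 := by rw [(hsp m).2.1]; rfl
      rw [h2] at h1
      have h3 := D.hx.lt _ (hExt m).1 m
      rw [← h1] at h3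
      exact (hm.trans h3).trans (hsp m).2.2.2
    · exact ((s (m + 1)).hce.trans_le (hAt' (m + 1)).2.1).trans (D.hx.lt d hdS _)
    · exact (s (m + 1)).hc.mono (hr.trans (hle (m + 1)))

end argument

/-- The generic set of points is forced to be stationary. -/
theorem gen_stat {D : Dat W} (hgood : GoodN D.x D.y D.S D.a0 D.k0 D.l0) (p : Cond D) :
    FStat (gen D) p := by
  intro Y q _ hY
  exact exists_stat hY hgood

/-- `FA⁺` for σ-closed posets gives stationary sets on which `x` and `y` are order isomorphic. -/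
theorem main (hW : #W ≤ ℵ₁) (hFA : FAplus W SigmaClosed) {S : Set W} (hS : Stat S)
    {x y : W → ℕ → W} (hx : Lad S x) (hy : Lad S y) :
    ∃ T ⊆ S, Stat T ∧ ∀ a ∈ T, ∀ b ∈ T, toLex (x a) < toLex (x b) ↔ toLex (y a) < toLex (y b) := by
  classical
  obtain ⟨a0, ha0, k0, l0, -, -, hg⟩ := exists_good hx hy subset_rfl (not_NS_of_stat hS) 0 0
  let D : Dat W := ⟨S, x, y, hx, hy, a0, k0, l0, ha0⟩
  have hgood : GoodN D.x D.y D.S D.a0 D.k0 D.l0 := hg
  -- the dense sets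
  let Δ : W → Set (Cond D) := fun a => {p | p ∈ gen D a ∨ ∀ q ≤ p, q ∉ gen D a}
  obtain ⟨G, ⟨-, hup, hdir, hmeet⟩, hT⟩ := hFA (Cond D) (sigmaClosed_cond D) (range Δ)
    (Cardinal.mk_range_le.trans hW) (by
      rintro _ ⟨a, rfl⟩ p
      by_cases h : ∃ q ≤ p, q ∈ gen D a
      · obtain ⟨q, hq, hqa⟩ := h
        exact ⟨q, Or.inl hqa, hq⟩
      · push Not at h
        exact ⟨p, Or.inr h, le_rfl⟩) (gen D) (gen_stat hgood)
  have hGen : ∀ a ∈ {a : W | ∃ p ∈ G, FIn (gen D) p a}, ∃ p ∈ G, p ∈ gen D a := by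
    rintro a ⟨p, hp, hpa⟩
    obtain ⟨g, hgG, hgD⟩ := hmeet (Δ a) ⟨a, rfl⟩
    rcases hgD with h | h
    · exact ⟨g, hgG, h⟩
    · obtain ⟨r, hrG, hrp, hrg⟩ := hdir p hp g hgG
      obtain ⟨r', hr', s, hs, hr's⟩ := hpa r hrp
      exact absurd (gen_mono hs hr's) (h r' (hr'.trans hrg))
  refine ⟨_, ?_, hT, ?_⟩
  · intro a ha
    obtain ⟨p, -, b, hb, rfl⟩ := hGen a ha
    exact (p.2.2.2.1 b hb).1
  · intro a ha b hb
    by_cases hab : a = b
    · subst hab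
      exact iff_of_false (lt_irrefl (toLex (x a))) (lt_irrefl (toLex (y a)))
    · obtain ⟨p, hp, β, hβ, rfl⟩ := hGen a ha
      obtain ⟨q, hq, β', hβ', rfl⟩ := hGen b hb
      obtain ⟨r, -, hrp, hrq⟩ := hdir p hp q hq
      exact (r.2.2.2.2 β (hrp hβ) β' (hrq hβ') (fun h => hab (congrArg Br.a h))).lt_iff

end Pool.Agent.Q310.BT
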