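import Pool.Agent.Q310.BT.Force

/-!
# The poset of coherent countable sets of branches

Given two ladder systems `x`, `y` on `S` and a good node, a condition is a nonempty countable set
of branches `(a, k, l)` through the node: `a ∈ S`, and `k`, `l` are strictly increasing sequences
of levels.  Any two branches of a condition split coherently.
-/

set_option autoImplicit false
set_option linter.unusedSectionVars false

open Set Cardinal Pool.Agent.IncSeq

namespace Pool.Agent.Q310.BT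

/-- a branch: a point with two sequences of levels -/
structure Br (W : Type) where
  a : W
  k : ℕ → ℕ
  l : ℕ → ℕ

/-- the data: two ladder systems and a node -/
structure Dat (W : Type) [LinearOrder W] where
  S : Set W
  x : W → ℕ → W
  y : W → ℕ → W
  hx : Lad S x
  hy : Lad S y
  a0 : W
  k0 : ℕ
  l0 : ℕ
  h0 : a0 ∈ S

section

variable {W : Type} [LinearOrder W]

/-- valid branches -/
def Valid (D : Dat W) (b : Br W) : Prop :=
  b.a ∈ D.S ∧ StrictMono b.k ∧ StrictMono b.l ∧ b.k 0 = D.k0 ∧ b.l 0 = D.l0 ∧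
    Thr D.x D.y D.a0 D.k0 D.l0 b.a

/-- `b` and `b'` split coherently at level `n` -/
def CohAt (D : Dat W) (b b' : Br W) (n : ℕ) : Prop :=
  (∀ i ≤ n, b.k i = b'.k i ∧ b.l i = b'.l i) ∧ Thr D.x D.y b.a (b.k n) (b.l n) b'.a ∧
    ((D.x b.a (b.k n) < D.x b'.a (b.k n) ∧ D.y b.a (b.l n) < D.y b'.a (b.l n)) ∨
      (D.x b'.a (b.k n) < D.x b.a (b.k n) ∧ D.y b'.a (b.l n) < D.y b.a (b.l n)))

def Coh (D : Dat W) (b b' : Br W) : Prop := ∃ n, CohAt D b b' n

theorem Coh.symm {D : Dat W} {b b' : Br W} (h : Coh D b b') : Coh D b' b := by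
  obtain ⟨n, h1, h2, h3⟩ := h
  obtain ⟨hk, hl⟩ := h1 n le_rfl
  refine ⟨n, fun i hi => ⟨(h1 i hi).1.symm, (h1 i hi).2.symm⟩, ?_, ?_⟩
  · rw [← hk, ← hl]; exact h2.symm
  · rw [← hk, ← hl]; exact h3.symm

/-- conditions -/
def Cond (D : Dat W) : Type :=
  {p : Set (Br W) // p.Nonempty ∧ p.Countable ∧ (∀ b ∈ p, Valid D b) ∧
    ∀ b ∈ p, ∀ b' ∈ p, b ≠ b' → Coh D b b'}

instance (D : Dat W) : PartialOrder (Cond D) where
  le p q := q.1 ⊆ p.1
  le_refl p := subset_rfl
  le_trans p q r h1 h2 := h2.trans h1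
  le_antisymm p q h1 h2 := Subtype.ext (Subset.antisymm h2 h1)

theorem Cond.le_def {D : Dat W} {p q : Cond D} : p ≤ q ↔ q.1 ⊆ p.1 := Iff.rfl

/-- the standard branch of the root -/
def rootBr (D : Dat W) : Br W := ⟨D.a0, fun i => D.k0 + i, fun i => D.l0 + i⟩

theorem rootBr_valid (D : Dat W) : Valid D (rootBr D) :=
  ⟨D.h0, fun i j h => Nat.add_lt_add_left h _, fun i j h => Nat.add_lt_add_left h _, rfl, rfl,
    Thr.refl _ _ _ _ _⟩

instance (D : Dat W) : Nonempty (Cond D) :=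
  ⟨⟨{rootBr D}, singleton_nonempty _, countable_singleton _, by
    intro b hb
    rw [mem_singleton_iff] at hb
    subst hb
    exact rootBr_valid D, by
    intro b hb b' hb' hne
    rw [mem_singleton_iff] at hb hb'
    exact absurd (hb.trans hb'.symm) hne⟩⟩

theorem chain_mono {D : Dat W} {f : ℕ → Cond D} (hf : ∀ n, f (n + 1) ≤ f n) {m n : ℕ}
    (h : m ≤ n) : (f m).1 ⊆ (f n).1 := by
  induction n, h using Nat.le_induction with
  | base => exact subset_rfl
  | succ n _ ih => exact ih.trans (hf n)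

theorem union_coh {D : Dat W} {f : ℕ → Cond D} (hf : ∀ n, f (n + 1) ≤ f n) {b b' : Br W}
    (hb : b ∈ ⋃ n, (f n).1) (hb' : b' ∈ ⋃ n, (f n).1) (hne : b ≠ b') : Coh D b b' := by
  obtain ⟨m, hm⟩ := mem_iUnion.1 hb
  obtain ⟨n, hn⟩ := mem_iUnion.1 hb'
  exact (f (max m n)).2.2.2.2 b (chain_mono hf (le_max_left m n) hm) b'
    (chain_mono hf (le_max_right m n) hn) hne

/-- the union of a chain -/
def limit {D : Dat W} (f : ℕ → Cond D) (hf : ∀ n, f (n + 1) ≤ f n) : Cond D :=
  ⟨⋃ n, (f n).1, by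
    obtain ⟨b, hb⟩ := (f 0).2.1
    exact ⟨b, mem_iUnion.2 ⟨0, hb⟩⟩, countable_iUnion fun n => (f n).2.2.1, by
    intro b hb
    obtain ⟨n, hn⟩ := mem_iUnion.1 hb
    exact (f n).2.2.2.1 b hn, fun b hb b' hb' hne => union_coh hf hb hb' hne⟩

theorem sigmaClosed_cond (D : Dat W) : SigmaClosed (Cond D) :=
  fun f hf => ⟨limit f hf, fun n => subset_iUnion (fun n => (f n).1) n⟩

/-- adding a branch -/
def addBr {D : Dat W} (p : Cond D) (b : Br W) (hb : Valid D b) (hc : ∀ b' ∈ p.1, b' ≠ b →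
    Coh D b' b) : Cond D :=
  ⟨insert b p.1, insert_nonempty _ _, p.2.2.1.insert _, by
    intro c hc
    rcases hc with rfl | hc
    · exact hb
    · exact p.2.2.2.1 c hc, by
    intro c h1 c' h2 hne
    rcases h1 with rfl | h1
    · rcases h2 with rfl | h2
      · exact absurd rfl hne
      · exact (hc c' h2 (Ne.symm hne)).symm
    · rcases h2 with rfl | h2
      · exact hc c h1 hne
      · exact p.2.2.2.2 c h1 c' h2 hne⟩

/-- The branch through `b`'s level `n` and then the node `(γ, k, l)`. -/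
def nextBr (b : Br W) (n : ℕ) (γ : W) (k l : ℕ) : Br W :=
  ⟨γ, fun i => if i ≤ n then b.k i else k + (i - (n + 1)),
    fun i => if i ≤ n then b.l i else l + (i - (n + 1))⟩

theorem nextBr_k_le {b : Br W} {n : ℕ} {γ : W} {k l i : ℕ} (h : i ≤ n) :
    (nextBr b n γ k l).k i = b.k i := by simp [nextBr, h]

theorem nextBr_l_le {b : Br W} {n : ℕ} {γ : W} {k l i : ℕ} (h : i ≤ n) :
    (nextBr b n γ k l).l i = b.l i := by simp [nextBr, h]

theorem nextBr_k_succ {b : Br W} {n : ℕ} {γ : W} {k l : ℕ} :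
    (nextBr b n γ k l).k (n + 1) = k := by simp [nextBr]

theorem nextBr_l_succ {b : Br W} {n : ℕ} {γ : W} {k l : ℕ} :
    (nextBr b n γ k l).l (n + 1) = l := by simp [nextBr]

theorem glue_mono {f : ℕ → ℕ} (hf : StrictMono f) {n k : ℕ} (hk : f n < k) :
    StrictMono (fun i => if i ≤ n then f i else k + (i - (n + 1))) := by
  apply strictMono_nat_of_lt_succ
  intro i
  by_cases h1 : i + 1 ≤ n
  · have h2 : i ≤ n := by omega
    simp only [h1, h2, if_true]
    exact hf (Nat.lt_succ_self i)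
  · by_cases h2 : i ≤ n
    · have h3 : i = n := by omega
      subst h3
      simp only [le_refl, if_true, h1, if_false]
      omega
    · simp only [h1, h2, if_false]
      omega

theorem nextBr_valid {D : Dat W} {b : Br W} (hb : Valid D b) {n : ℕ} {γ : W} {k l : ℕ}
    (hγ : γ ∈ D.S) (hk : b.k n < k) (hl : b.l n < l) (ht : Thr D.x D.y b.a (b.k n) (b.l n) γ) :
    Valid D (nextBr b n γ k l) := by
  obtain ⟨-, h2, h3, h4, h5, h6⟩ := hb
  refine ⟨hγ, glue_mono h2 hk, glue_mono h3 hl, ?_, ?_, ?_⟩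
  · rw [nextBr_k_le (Nat.zero_le n)]; exact h4
  · rw [nextBr_l_le (Nat.zero_le n)]; exact h5
  · refine h6.trans (ht.mono ?_ ?_)
    · rw [← h4]; exact h2.monotone (Nat.zero_le n)
    · rw [← h5]; exact h3.monotone (Nat.zero_le n)

/-- If `β ∈ q` is a branch, all points of `q` are below `e`, then a branch that agrees with `β`
up to level `n`, and has new values at least `e` there, is coherent with `q`. -/
theorem coh_of_new {D : Dat W} {q : Cond D} {β c : Br W} {n : ℕ} {e : W} (hβ : β ∈ q.1)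
    (he : ∀ b ∈ q.1, b.a < e) (hc : ∀ i ≤ n, β.k i = c.k i ∧ β.l i = c.l i)
    (ht : Thr D.x D.y β.a (β.k n) (β.l n) c.a) (h1 : e ≤ D.x c.a (β.k n))
    (h2 : e ≤ D.y c.a (β.l n)) : ∀ b ∈ q.1, b ≠ c → Coh D b c := by
  intro b hb hne
  have hbS := (q.2.2.2.1 b hb).1
  have hlt1 : ∀ i, D.x b.a i < e := fun i => (D.hx.lt _ hbS i).trans (he b hb)
  have hlt2 : ∀ i, D.y b.a i < e := fun i => (D.hy.lt _ hbS i).trans (he b hb)
  have hβv := q.2.2.2.1 β hβ
  by_cases hbβ : b = β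
  · subst hbβ
    exact ⟨n, hc, ht, Or.inl ⟨(hlt1 _).trans_le h1, (hlt2 _).trans_le h2⟩⟩
  · obtain ⟨j, hj1, hj2, hj3⟩ := q.2.2.2.2 b hb β hβ hbβ
    by_cases hjn : j < n
    · -- they split below level `n`
      have hk : b.k j < β.k n := by
        rw [(hj1 j le_rfl).1]; exact hβv.2.1 hjn
      have hl : b.l j < β.l n := by
        rw [(hj1 j le_rfl).2]; exact hβv.2.2.1 hjn
      refine ⟨j, fun i hi => ?_, ?_, ?_⟩
      · exact ⟨(hj1 i hi).1.trans (hc i (hi.trans hjn.le)).1,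
          (hj1 i hi).2.trans (hc i (hi.trans hjn.le)).2⟩
      · exact hj2.trans (ht.mono hk.le hl.le)
      · rw [ht.1 _ hk, ht.2 _ hl]
        exact hj3
    · push Not at hjn
      have hk : b.k n = β.k n := (hj1 n hjn).1
      have hl : b.l n = β.l n := (hj1 n hjn).2
      have hbv := q.2.2.2.1 b hb
      refine ⟨n, fun i hi => ?_, ?_, Or.inl ⟨(hlt1 _).trans_le ?_, (hlt2 _).trans_le ?_⟩⟩
      · exact ⟨(hj1 i (hi.trans hjn)).1.trans (hc i hi).1,
          (hj1 i (hi.trans hjn)).2.trans (hc i hi).2⟩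
      · refine (hj2.mono (hbv.2.1.monotone hjn) (hbv.2.2.1.monotone hjn)).trans ?_
        rw [hk, hl]
        exact ht
      · rw [hk]; exact h1
      · rw [hl]; exact h2

/-- points of coherent branches are ordered in the same way by `x` and `y` -/
theorem Coh.lt_iff [WellFoundedLT W] {D : Dat W} {b b' : Br W} (h : Coh D b b') :
    toLex (D.x b.a) < toLex (D.x b'.a) ↔ toLex (D.y b.a) < toLex (D.y b'.a) := by
  obtain ⟨n, -, ht, h⟩ := h
  have key : ∀ (z z' : ℕ → W) (m : ℕ), (∀ i < m, z' i = z i) → z m < z' m →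
      toLex z < toLex z' := by
    intro z z' m hz hm
    exact ⟨m, fun j hj => (hz j hj).symm, hm⟩
  rcases h with ⟨h1, h2⟩ | ⟨h1, h2⟩
  · exact iff_of_true (key _ _ _ ht.1 h1) (key _ _ _ ht.2 h2)
  · exact iff_of_false
      (lt_asymm (key _ _ _ (fun i hi => (ht.1 i hi).symm) h1))
      (lt_asymm (key _ _ _ (fun i hi => (ht.2 i hi).symm) h2))

/-- the name of the generic set of points -/
def gen (D : Dat W) : W → Set (Cond D) := fun a => {p | ∃ b ∈ p.1, b.a = a}

theorem gen_mono {D : Dat W} {a : W} {p q : Cond D} (h : p ∈ gen D a) (hq : q ≤ p) :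
    q ∈ gen D a := by
  obtain ⟨b, hb, hba⟩ := h
  exact ⟨b, hq hb, hba⟩

theorem fin_of_gen {D : Dat W} {a : W} {p : Cond D} (h : p ∈ gen D a) : FIn (gen D) p a :=
  fun q hq => ⟨q, le_rfl, q, gen_mono h hq, le_rfl⟩

end

end Pool.Agent.Q310.BT
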